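import Pool.Agent.Q122.TF.Box

set_option autoImplicit false

/-!
# Class group torsion in all genus zero families of number fields of any degree

Let `n ≥ 2` and `ε > 0`.  There is a constant `B`, depending only on `n` and `ε`, such that:

(1) for all integer polynomials `f`, `g` of degree at most `n` with coefficients at most `H` in
absolute value and not proportional, and every interval `(A, A + T]` with `|A|, T ≤ H`, all but
`B √T H^ε` of the integers `t` of the interval have the property that every number field `K` of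
degree `n` generated by a root of `f(x) = t g(x)` satisfies, for all `l ≥ 1` at once,
`|Cl_K[l]| ≤ B |disc K|^(1/2 - 1/(2 l (n-1))) H^ε`;

(2) the same bound holds for the fields of degree `n` generated by a root of
`x^n + a_{n-1} x^{n-1} + ... + a_0`, for all but `B H^(n - 1/2 + ε)` of the integer vectors `a` with
`|a_i| ≤ H`.
-/

namespace Pool.Agent.Results.MP_695920_nt.GenusZeroFamilies

open Polynomial NumberField

/-- Every number field `K` of degree `n` generated by a root of `P` satisfies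
`|Cl_K[l]| ≤ B |disc K|^(1/2 - 1/(2 l (n-1))) H^ε` for all `l ≥ 1`. -/
def TorsionBound (n : ℕ) (B ε : ℝ) (H : ℕ) (P : ℤ[X]) : Prop :=
  ∀ (K : Type) [Field K] [NumberField K], Module.finrank ℚ K = n → ∀ α : K,
    IntermediateField.adjoin ℚ {α} = ⊤ → aeval α P = 0 → ∀ l : ℕ, 1 ≤ l →
    (Nat.card {c : ClassGroup (𝓞 K) // c ^ l = 1} : ℝ) ≤
      B * |(discr K : ℝ)| ^ (1 / 2 - 1 / (2 * l * (n - 1)) : ℝ) * (H : ℝ) ^ ε

theorem result (n : ℕ) (hn : 2 ≤ n) (ε : ℝ) (hε : 0 < ε) : ∃ B : ℝ,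
    (∀ H : ℕ, 1 ≤ H → ∀ f g : ℤ[X], f.natDegree ≤ n → g.natDegree ≤ n →
      (∀ i, |f.coeff i| ≤ (H : ℤ)) → (∀ i, |g.coeff i| ≤ (H : ℤ)) →
      (∃ i j, f.coeff i * g.coeff j ≠ f.coeff j * g.coeff i) →
      ∀ (A : ℤ) (T : ℕ), 1 ≤ T → |A| ≤ (H : ℤ) → T ≤ H →
      ∃ E : Finset ℤ, (E.card : ℝ) ≤ B * √T * (H : ℝ) ^ ε ∧
        ∀ t : ℤ, A < t → t ≤ A + T → t ∉ E → TorsionBound n B ε H (f - C t * g)) ∧
    (∀ H : ℕ, 1 ≤ H →
      ∃ E : Finset (Fin n → ℤ), (E.card : ℝ) ≤ B * (H : ℝ) ^ (n - 1 / 2 + ε : ℝ) ∧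
        ∀ a : Fin n → ℤ, (∀ i, |a i| ≤ (H : ℤ)) → a ∉ E →
          TorsionBound n B ε H (X ^ n + ∑ i : Fin n, C (a i) * X ^ (i : ℕ))) := by
  obtain ⟨B1, h10, h1⟩ := Pool.Agent.Q122.TF.gz2 n hn ε hε
  obtain ⟨B2, h20, h2⟩ := Pool.Agent.Q122.TF.box n hn ε hε
  refine ⟨max B1 B2, ?_, ?_⟩
  · intro H hH f g hf hg hfH hgH hfg A T hT hA hTH
    obtain ⟨E, -, hE2, hE3⟩ := h1 H hH f g hf hg hfH hgH hfg A T hT hA hTH
    refine ⟨E, hE2.trans ?_, ?_⟩
    · have := le_max_left B1 B2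
      gcongr
    · intro t ht1 ht2 htE
      have h3 := hE3 t (Finset.mem_Ioc.2 ⟨ht1, ht2⟩) htE
      refine Pool.Agent.Q122.TF.TorBound.mono h3 ?_
      have := le_max_left B1 B2
      gcongr
  · intro H hH
    obtain ⟨E, hE2, hE3⟩ := h2 H hH
    refine ⟨E, hE2.trans ?_, ?_⟩
    · have := le_max_right B1 B2
      gcongr
    · intro a ha haE
      have h3 := hE3 a ha haE
      refine Pool.Agent.Q122.TF.TorBound.mono h3 ?_
      have := le_max_right B1 B2
      gcongr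

end Pool.Agent.Results.MP_695920_nt.GenusZeroFamilies
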