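import Pool.Agent.Q122.TF.QuadFam3

set_option autoImplicit false

/-!
# Class group torsion in the quadratic fields `ℚ(√f(t))` of a polynomial

Let `f` be an integer polynomial of any degree which is not a constant times the square of a
polynomial, and let `ε > 0`.

(1) Very short intervals.  There is a constant `B` such that for every interval `(A, A + T]` of
length `T ≥ (log (|A| + T))^B`, all but `B T^(1/2 + ε)` integers `t` of the interval have the
property that, if `ℚ(√f(t))` is a quadratic field `K` (real or imaginary), then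
`|Cl_K[l]| ≤ B |disc K|^(1/2 - 1/(2l)) (|A| + T)^ε` for all `l ≥ 1` at once.

(2) Moments.  For every real `r ≥ 0` there is `B` such that for all `A`, `T` and `l`, with
`M = |A| + T` and `d` the degree of `f`, the sum of `|Cl_K[l]|^r`, over all `t` in `(A, A + T]` for
which `K = ℚ(√f(t))` is quadratic, is at most `B M^(r d / 2 + ε) (T M^(- r d / (2 l)) + √T)`.
-/

namespace Pool.Agent.Results.MP_695920_nt.QuadraticPolynomialFamilies

open Polynomial NumberField

/-- `K` is a quadratic field generated by a square root of `m`. -/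
def IsQuadraticOf (K : Type) [Field K] [NumberField K] (m : ℤ) : Prop :=
  Module.finrank ℚ K = 2 ∧ ∃ α : K, IntermediateField.adjoin ℚ {α} = ⊤ ∧ α ^ 2 = (m : K)

/-- the number of ideal classes killed by `l` -/
noncomputable def torsion (K : Type) [Field K] [NumberField K] (l : ℕ) : ℝ :=
  Nat.card {c : ClassGroup (𝓞 K) // c ^ l = 1}

theorem result (f : ℤ[X])
    (hf : ∀ (c : ℚ) (g : ℚ[X]), f.map (Int.castRingHom ℚ) ≠ C c * g ^ 2) (ε : ℝ) (hε : 0 < ε) :
    (∃ B : ℝ, ∀ (A : ℤ) (T : ℕ), 1 ≤ T → (Real.log (|(A : ℝ)| + T)) ^ B ≤ T →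
      ∃ E : Finset ℤ, (E.card : ℝ) ≤ B * (T : ℝ) ^ (1 / 2 + ε) ∧
        ∀ t : ℤ, A < t → t ≤ A + T → t ∉ E →
          ∀ (K : Type) [Field K] [NumberField K], IsQuadraticOf K (f.eval t) →
            ∀ l : ℕ, 1 ≤ l → torsion K l ≤
              B * |(discr K : ℝ)| ^ (1 / 2 - 1 / (2 * l) : ℝ) * (|(A : ℝ)| + T) ^ ε) ∧
    (∀ r : ℝ, 0 ≤ r → ∃ B : ℝ, ∀ (A : ℤ) (T : ℕ), 1 ≤ T → ∀ l : ℕ, 1 ≤ l →
      ∀ (S : Finset ℤ), (∀ t ∈ S, A < t ∧ t ≤ A + T) →
      ∀ (K : ℤ → Type) [∀ t, Field (K t)] [∀ t, NumberField (K t)],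
        (∀ t ∈ S, IsQuadraticOf (K t) (f.eval t)) →
        ∑ t ∈ S, (torsion (K t) l) ^ r ≤
          B * (|(A : ℝ)| + T) ^ (r * f.natDegree / 2 + ε) *
            (T * (|(A : ℝ)| + T) ^ (-(r * f.natDegree / (2 * l))) + √T)) := by
  constructor
  · obtain ⟨B, _, hB⟩ := Pool.Agent.Q122.TF.quad_fam3 f hf ε hε
    refine ⟨B, ?_⟩
    intro A T hT hlog
    obtain ⟨E, -, hE2, hE3⟩ := hB A T hT hlog
    refine ⟨E, hE2, ?_⟩
    intro t ht1 ht2 htE K _ _ hK l hl
    obtain ⟨h1, α, h2, h3⟩ := hK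
    exact hE3 t (Finset.mem_Ioc.2 ⟨ht1, ht2⟩) htE K h1 α h2 h3 l hl
  · intro r hr
    obtain ⟨B, _, hB⟩ := Pool.Agent.Q122.TF.quad_mom f hf ε hε r hr
    refine ⟨B, ?_⟩
    intro A T hT l hl S hS K _ _ hK
    exact hB A T hT l hl K S (fun t ht => Finset.mem_Ioc.2 (hS t ht)) hK

end Pool.Agent.Results.MP_695920_nt.QuadraticPolynomialFamilies
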