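import Pool.Agent.Q138.PS.XP
import Pool.Agent.Results.MP_695920_nt.GenusZeroFamilies

/-!
# Class group torsion in genus zero families at the integers near the powers of a real number

For almost every real `α > 1`, for ALL `n ≥ 2`, ALL non-proportional `f, g ∈ ℤ[x]` of degree at most `n`, all `ε > 0`, all
positive algebraic numbers `c`, all integers `j`, all `l < 1 / 2` and all large `k`: for EVERY integer `t ≠ 0` with
`| |t| - c k ^ j α ^ k| ≤ D (c k ^ j α ^ k) ^ l` every number field `K` of degree `n` generated by a root of `f(x) = t g(x)`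
satisfies, for all `m ≥ 1` at once, `|Cl_K[m]| ≤ |disc K| ^ (1/2 - 1/(2 m (n-1))) |t| ^ ε`. For fixed `l` the exceptional `α` form
a set of Hausdorff dimension at most `1 / (2 (1 - l))`.
-/

set_option autoImplicit false

namespace Pool.Agent.Results.MP_695920_nt.TorsionNearPowers

open Filter Topology MeasureTheory Polynomial NumberField
open Pool.Agent.Q138.PS
open GenusZeroFamilies (TorsionBound)

/-- Every number field `K` of degree `n` generated by a root of `f - t g` satisfies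
`|Cl_K[m]| ≤ |disc K|^(1/2 - 1/(2 m (n-1))) |t|^ε` for all `m ≥ 1`. -/
def Bound (n : ℕ) (f g : ℤ[X]) (ε : ℝ) (t : ℤ) : Prop :=
  ∀ (K : Type) [Field K] [NumberField K], Module.finrank ℚ K = n → ∀ θ : K,
    IntermediateField.adjoin ℚ {θ} = ⊤ → aeval θ (f - C t * g) = 0 → ∀ m : ℕ, 1 ≤ m →
    (Nat.card {c : ClassGroup (𝓞 K) // c ^ m = 1} : ℝ) ≤
      |(discr K : ℝ)| ^ (1 / 2 - 1 / (2 * m * (n - 1)) : ℝ) * |(t : ℝ)| ^ ε

/-- `n ≥ 2`, and the polynomials `f` and `g` have degree at most `n` and are not proportional -/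
def Pencil (n : ℕ) (f g : ℤ[X]) : Prop :=
  2 ≤ n ∧ f.natDegree ≤ n ∧ g.natDegree ≤ n ∧ ∃ i j, f.coeff i * g.coeff j ≠ f.coeff j * g.coeff i

/-- for all pencils, all `ε > 0`, all positive algebraic numbers `c`, all integers `j`, all `D` and all large `k`: the bound
holds at EVERY integer `t ≠ 0` with `| |t| - c k ^ j α ^ k| ≤ D (c k ^ j α ^ k) ^ l` -/
def AllBound (α l : ℝ) : Prop :=
  ∀ (n : ℕ) (f g : ℤ[X]), Pencil n f g → ∀ ε : ℝ, 0 < ε → ∀ c : ℝ, 0 < c → IsAlgebraic ℚ c → ∀ (j : ℤ) (D : ℝ),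
    ∀ᶠ k : ℕ in atTop, ∀ t : ℤ, t ≠ 0 → |(|(t : ℝ)| - c * (k : ℝ) ^ j * α ^ k)| ≤ D * (c * (k : ℝ) ^ j * α ^ k) ^ l →
      Bound n f g ε t

theorem one_le_abs' {t : ℤ} (ht0 : t ≠ 0) : (1 : ℝ) ≤ |(t : ℝ)| := by
  have h6 : (1 : ℤ) ≤ |t| := Int.one_le_abs ht0
  have h7 : ((1 : ℤ) : ℝ) ≤ ((|t| : ℤ) : ℝ) := by exact_mod_cast h6
  rw [Int.cast_abs] at h7
  simpa using h7

theorem Bound.mono {n : ℕ} {f g : ℤ[X]} {ε ε' : ℝ} {t : ℤ} (h : Bound n f g ε t) (ht : t ≠ 0) (hε : ε ≤ ε') :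
    Bound n f g ε' t := by
  intro K _ _ h1 θ h2 h3 m hm
  refine (h K h1 θ h2 h3 m hm).trans ?_
  exact mul_le_mul_of_nonneg_left (Real.rpow_le_rpow_of_exponent_le (one_le_abs' ht) hε) (by positivity)

/-- `t` or `- t` is exceptional -/
def Bad (n : ℕ) (f g : ℤ[X]) (ε : ℝ) (m : ℕ) : Prop := ¬ Bound n f g ε (m : ℤ) ∨ ¬ Bound n f g ε (-(m : ℤ))

theorem few {n : ℕ} {f g : ℤ[X]} (hP : Pencil n f g) {ε : ℝ} (hε : 0 < ε) :
    ∀ e : ℝ, 0 < e → ∃ C : ℝ, ∀ T : ℝ, 1 ≤ T →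
      (({m | m ∈ {m : ℕ | 1 ≤ m ∧ Bad n f g ε m} ∧ (m : ℝ) ≤ T}).ncard : ℝ) ≤ C * T ^ (1 / 2 + e) := by
  classical
  obtain ⟨hn, hf, hg, hfg⟩ := hP
  refine few_of_scales (Bad n f g ε) (1 / 2) ε (by norm_num) hε fun e he => ?_
  obtain ⟨B, hB, -⟩ := GenusZeroFamilies.result n hn e he
  -- a bound for the coefficients
  obtain ⟨H₀, hH₀1, hH₀⟩ : ∃ H₀ : ℕ, 1 ≤ H₀ ∧ (∀ i, |f.coeff i| ≤ (H₀ : ℤ)) ∧ ∀ i, |g.coeff i| ≤ (H₀ : ℤ) := by
    refine ⟨1 + (∑ i ∈ Finset.range (f.natDegree + 1), (f.coeff i).natAbs) +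
      (∑ i ∈ Finset.range (g.natDegree + 1), (g.coeff i).natAbs), by omega, ?_, ?_⟩
    · intro i
      by_cases hi : i ∈ Finset.range (f.natDegree + 1)
      · have := Finset.single_le_sum (f := fun i => (f.coeff i).natAbs) (fun _ _ => Nat.zero_le _) hi
        rw [Int.abs_eq_natAbs]
        push_cast
        have h2 : ((f.coeff i).natAbs : ℤ) ≤ ((∑ i ∈ Finset.range (f.natDegree + 1), (f.coeff i).natAbs : ℕ) : ℤ) := by
          exact_mod_cast this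
        have h3 : (0 : ℤ) ≤ ((∑ i ∈ Finset.range (g.natDegree + 1), (g.coeff i).natAbs : ℕ) : ℤ) := by positivity
        push_cast at h2 h3
        linarith
      · rw [Finset.mem_range, not_lt] at hi
        rw [coeff_eq_zero_of_natDegree_lt (by omega), abs_zero]
        positivity
    · intro i
      by_cases hi : i ∈ Finset.range (g.natDegree + 1)
      · have := Finset.single_le_sum (f := fun i => (g.coeff i).natAbs) (fun _ _ => Nat.zero_le _) hi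
        rw [Int.abs_eq_natAbs]
        push_cast
        have h2 : ((g.coeff i).natAbs : ℤ) ≤ ((∑ i ∈ Finset.range (g.natDegree + 1), (g.coeff i).natAbs : ℕ) : ℤ) := by
          exact_mod_cast this
        have h3 : (0 : ℤ) ≤ ((∑ i ∈ Finset.range (f.natDegree + 1), (f.coeff i).natAbs : ℕ) : ℤ) := by positivity
        push_cast at h2 h3
        linarith
      · rw [Finset.mem_range, not_lt] at hi
        rw [coeff_eq_zero_of_natDegree_lt (by omega), abs_zero]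
        positivity
  set B' : ℝ := |B| * 2 * (3 * H₀ : ℝ) ^ e with hB'
  have hH₀r : (1 : ℝ) ≤ H₀ := by exact_mod_cast hH₀1
  have h3H : (1 : ℝ) ≤ (3 * H₀ : ℝ) ^ e := Real.one_le_rpow (by linarith) he.le
  refine ⟨B', fun M hM => ?_⟩
  have hMr : (1 : ℝ) ≤ M := by exact_mod_cast hM
  have hMi : (1 : ℤ) ≤ M := by exact_mod_cast hM
  have hH₀i : (1 : ℤ) ≤ H₀ := by exact_mod_cast hH₀1
  obtain ⟨E, hE1, hE2⟩ := hB (3 * H₀ * M) (by nlinarith) f g hf hg
    (fun i => (hH₀.1 i).trans (by push_cast; nlinarith)) (fun i => (hH₀.2 i).trans (by push_cast; nlinarith)) hfg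
    (-(M : ℤ) - 1) (2 * M + 1) (by omega)
    (by rw [abs_le]; push_cast; constructor <;> nlinarith) (by nlinarith)
  have hHM : (((3 * H₀ * M : ℕ) : ℝ)) ^ e = (3 * H₀ : ℝ) ^ e * (M : ℝ) ^ e := by
    push_cast
    rw [Real.mul_rpow (by positivity) (by positivity)]
  refine ⟨E, ?_, fun m hm1 hmM hmE hmE' hme => ?_⟩
  · refine hE1.trans ?_
    rw [hHM]
    have h1 : √((2 * M + 1 : ℕ) : ℝ) ≤ 2 * (M : ℝ) ^ (1 / 2 : ℝ) := by
      rw [← Real.sqrt_eq_rpow, show (2 : ℝ) = √4 by rw [show (4 : ℝ) = 2 ^ 2 by norm_num, Real.sqrt_sq (by norm_num)],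
        ← Real.sqrt_mul (by norm_num)]
      refine Real.sqrt_le_sqrt ?_
      push_cast
      linarith
    have h2 : B * √((2 * M + 1 : ℕ) : ℝ) ≤ |B| * (2 * (M : ℝ) ^ (1 / 2 : ℝ)) :=
      mul_le_mul (le_abs_self B) h1 (Real.sqrt_nonneg _) (abs_nonneg B)
    calc B * √((2 * M + 1 : ℕ) : ℝ) * ((3 * H₀ : ℝ) ^ e * (M : ℝ) ^ e) ≤
        |B| * (2 * (M : ℝ) ^ (1 / 2 : ℝ)) * ((3 * H₀ : ℝ) ^ e * (M : ℝ) ^ e) :=
          mul_le_mul_of_nonneg_right h2 (by positivity)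
      _ = B' * ((M : ℝ) ^ (1 / 2 : ℝ) * (M : ℝ) ^ e) := by rw [hB']; ring
      _ = B' * (M : ℝ) ^ (1 / 2 + e) := by rw [← Real.rpow_add (by linarith)]
  · have key : ∀ t : ℤ, t ∉ E → |t| = (m : ℤ) → Bound n f g ε t := by
      intro t htE htm K _ _ h1 θ h2 h3 l hl
      have h4 := hE2 t (by rcases abs_eq (by positivity : (0 : ℤ) ≤ m) |>.1 htm with h | h <;> omega)
        (by push_cast; rcases abs_eq (by positivity : (0 : ℤ) ≤ m) |>.1 htm with h | h <;> omega) htE K h1 θ h2 h3 l hl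
      refine h4.trans ?_
      have h5 : |(t : ℝ)| = m := by
        have : ((|t| : ℤ) : ℝ) = ((m : ℤ) : ℝ) := by rw [htm]
        rw [Int.cast_abs] at this
        simpa using this
      rw [h5, hHM]
      have h6 : B * ((3 * H₀ : ℝ) ^ e * (M : ℝ) ^ e) ≤ (m : ℝ) ^ ε := by
        refine le_trans ?_ hme
        rw [hB']
        have h7 : B ≤ |B| * 2 := by
          have := le_abs_self B
          have := abs_nonneg B
          linarith
        calc B * ((3 * H₀ : ℝ) ^ e * (M : ℝ) ^ e) ≤ (|B| * 2) * ((3 * H₀ : ℝ) ^ e * (M : ℝ) ^ e) :=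
              mul_le_mul_of_nonneg_right h7 (by positivity)
          _ = _ := by ring
      have h8 : 0 ≤ |(discr K : ℝ)| ^ (1 / 2 - 1 / (2 * l * (n - 1)) : ℝ) := by positivity
      calc B * |(discr K : ℝ)| ^ (1 / 2 - 1 / (2 * l * (n - 1)) : ℝ) * ((3 * H₀ : ℝ) ^ e * (M : ℝ) ^ e) =
          |(discr K : ℝ)| ^ (1 / 2 - 1 / (2 * l * (n - 1)) : ℝ) * (B * ((3 * H₀ : ℝ) ^ e * (M : ℝ) ^ e)) := by ring
        _ ≤ _ := mul_le_mul_of_nonneg_left h6 h8
    rintro (h | h)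
    · exact h (key _ hmE (by simp))
    · exact h (key _ hmE' (by simp))

instance countable_pol : Countable ℤ[X] :=
  Cardinal.mk_le_aleph0_iff.1 (by
    refine (Polynomial.cardinalMk_le_max (R := ℤ)).trans ?_
    simp)

theorem part1 (l : ℝ) (hl : l < 1) :
    ∃ E : Set ℝ, dimH E ≤ ENNReal.ofReal (1 / (2 * (1 - l))) ∧ ∀ α : ℝ, 1 < α → α ∉ E → AllBound α l := by
  classical
  obtain ⟨E, hE, hg⟩ := pow_alg (ι := {i : (ℕ × ℤ[X] × ℤ[X]) × ℚ // Pencil i.1.1 i.1.2.1 i.1.2.2 ∧ 0 < i.2})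
    (fun i => {m : ℕ | 1 ≤ m ∧ Bad i.1.1.1 i.1.1.2.1 i.1.1.2.2 (i.1.2 : ℝ) m}) (1 / 2) l (by norm_num) hl
    (fun i => few i.2.1 (by exact_mod_cast i.2.2))
  refine ⟨E, ?_, fun α hα hαE n f g hP ε hε c hc hca j D => ?_⟩
  · refine hE.trans (le_of_eq ?_)
    congr 1
    have : (1 : ℝ) - l ≠ 0 := by linarith
    field_simp
  obtain ⟨q, hq1, hq2⟩ := exists_rat_btwn hε
  filter_upwards [hg α hα hαE ⟨((n, f, g), q), hP, by exact_mod_cast hq1⟩ c hc hca j D] with k hk t ht h1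
  refine Bound.mono (ε := q) ?_ ht hq2.le
  have h2 : ((t.natAbs : ℕ) : ℝ) = |(t : ℝ)| := by
    rw [Nat.cast_natAbs, Int.cast_abs]
  have h3 := hk t.natAbs (by unfold NearPow; rw [h2]; exact h1)
  simp only [not_and] at h3
  have h4 := h3 (by omega)
  unfold Bad at h4
  push Not at h4
  rcases le_or_gt 0 t with h | h
  · have := h4.1
    rwa [Int.natAbs_of_nonneg h] at this
  · have := h4.2
    rwa [Int.ofNat_natAbs_of_nonpos h.le, neg_neg] at this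

/-- **Theorem.** -/
theorem result :
    (∀ l : ℝ, l < 1 →
      ∃ E : Set ℝ, dimH E ≤ ENNReal.ofReal (1 / (2 * (1 - l))) ∧ ∀ α : ℝ, 1 < α → α ∉ E → AllBound α l) ∧
    (∀ᵐ α : ℝ, 1 < α → ∀ l : ℝ, l < 1 / 2 → AllBound α l) := by
  refine ⟨part1, ?_⟩
  have h1 : ∀ q : {q : ℚ // (q : ℝ) < 1 / 2}, ∀ᵐ α : ℝ, 1 < α → AllBound α q.1 := by
    rintro ⟨q, hq⟩
    simp only at hq ⊢
    obtain ⟨E, hE, hg⟩ := part1 q (by linarith)
    have hnull : volume E = 0 := null_of_dim (by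
      rw [div_lt_one (by linarith)]
      linarith) hE
    have hae : ∀ᵐ α : ℝ, α ∉ E := measure_eq_zero_iff_ae_notMem.1 hnull
    filter_upwards [hae] with α h2 h3
    exact hg α h3 h2
  filter_upwards [ae_all_iff.2 h1] with α h2 hα l hl n f g hP ε hε c hc hca j D
  obtain ⟨q, hq1, hq2⟩ := exists_rat_btwn hl
  filter_upwards [h2 ⟨q, hq2⟩ hα n f g hP ε hε c hc hca j |D|, (grow hα hc j).eventually_ge_atTop 1] with k h3 h4 t ht h5
  refine h3 t ht (h5.trans ?_)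
  have h6 : (c * (k : ℝ) ^ j * α ^ k) ^ l ≤ (c * (k : ℝ) ^ j * α ^ k) ^ (q : ℝ) := Real.rpow_le_rpow_of_exponent_le h4 hq1.le
  have h7 : 0 ≤ (c * (k : ℝ) ^ j * α ^ k) ^ l := by positivity
  exact mul_le_mul (le_abs_self D) h6 h7 (abs_nonneg D)

end Pool.Agent.Results.MP_695920_nt.TorsionNearPowers
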