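import Mathlib
import Pool.Agent.Q84.MB.F3
import Pool.Agent.Q122.TF.QuadFam3

/-!
# Torsion in the class groups of all small quadratic fields attached to a string of consecutive primes

Let `0 < δ < 2`, `ε > 0` and `κ > 0`. For every `m` there are `c > 0` and, for every `Z`, a number `C` with the
following property. For every large `X` there is a set `S` of at most `(log X) ^ (49 / 50)` primes, all larger than
`Z`, such that for EVERY function `f` with values `1` and `-1` on the primes at least `X ^ (1 - κ)` integers `n`,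
`X < n ≤ 3X`, satisfy: the interval `[n, n + C]` contains at least `m` primes, and every prime `p` in it has the
following two properties.

* The Legendre symbol `(p / q)` is `f q` for all odd primes `q ≤ c log X` outside `S`; so one can prescribe, for
  instance, that all these primes are inert in `ℚ(√p)`, or in `ℚ(√(-p))`, or that they all split.
* For ALL integers `t ≠ 0` divisible by `p` with `|t| ≤ p ^ (2 - δ)` and all quadratic fields `K = ℚ(√t)`, real or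
  imaginary (in particular for all quadratic fields whose discriminant is divisible by `p` and at most
  `p ^ (2 - δ)` in absolute value), and for all `l ≥ 1` at once, `|Cl_K[l]| ≤ |disc K| ^ (1/2 - 1/(2l)) p ^ ε`.

Method: the exceptional `|t| ≤ Y` are `O(Y ^ (1/2 + ε))` in number (library `Q122.TF`), so few primes divide an
exceptional `t`; the Maynard-Tao theorem relative to a modulus which is a small power of `X`, in the form that it
avoids arbitrary exceptional sets of size `X ^ (1 - η)` (`Q84/MB/E1-E4`), gives the strings.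
-/

set_option autoImplicit false

open scoped Classical

namespace Pool.Agent.Results.MP_695920_nt.TorsionOnStringsOfPrimes

open Finset Filter NumberField

/-- `K` is a quadratic field generated by a square root of `t`. -/
def IsQuadraticOf (K : Type) [Field K] [NumberField K] (t : ℤ) : Prop :=
  Module.finrank ℚ K = 2 ∧ ∃ α : K, IntermediateField.adjoin ℚ {α} = ⊤ ∧ α ^ 2 = (t : K)

/-- the number of ideal classes killed by `l` -/
noncomputable def torsion (K : Type) [Field K] [NumberField K] (l : ℕ) : ℝ :=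
  Nat.card {c : ClassGroup (𝓞 K) // c ^ l = 1}

/-- The torsion bound, for all `l` at once, for all quadratic fields generated by a square root of a nonzero
multiple `t` of `p` with `|t| ≤ p ^ (2 - δ)`. -/
def Good (δ ε : ℝ) (p : ℕ) : Prop := ∀ t : ℤ, t ≠ 0 → (p : ℤ) ∣ t → |(t : ℝ)| ≤ (p : ℝ) ^ (2 - δ) →
  ∀ (K : Type) [Field K] [NumberField K], IsQuadraticOf K t → ∀ l : ℕ, 1 ≤ l →
    torsion K l ≤ |(discr K : ℝ)| ^ (1 / 2 - 1 / (2 * l) : ℝ) * (p : ℝ) ^ ε

open Polynomial in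
/-- the exceptional integers up to `Y` -/
theorem exceptional (ε : ℝ) (hε : 0 < ε) : ∃ B : ℝ, 0 < B ∧ ∃ Y₀ : ℕ, ∀ Y : ℕ, Y₀ ≤ Y →
    ∃ E : Finset ℤ, (E.card : ℝ) ≤ B * (Y : ℝ) ^ (1 / 2 + ε) ∧
      ∀ t : ℤ, |t| ≤ Y → t ∉ E → ∀ (K : Type) [Field K] [NumberField K], IsQuadraticOf K t →
        ∀ l : ℕ, 1 ≤ l → torsion K l ≤ B * |(discr K : ℝ)| ^ (1 / 2 - 1 / (2 * l) : ℝ) * (Y : ℝ) ^ ε := by
  have hX : ∀ (c : ℚ) (g : ℚ[X]), (X : ℤ[X]).map (Int.castRingHom ℚ) ≠ C c * g ^ 2 := by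
    intro c g h
    rw [Polynomial.map_X] at h
    have h1 := congrArg natDegree h
    rw [natDegree_X] at h1
    have hc : c ≠ 0 := by
      rintro rfl
      rw [C_0, zero_mul] at h
      exact X_ne_zero h
    rw [natDegree_C_mul hc, natDegree_pow] at h1
    omega
  obtain ⟨B, hB0, hB⟩ := Pool.Agent.Q122.TF.quad_fam3 (X : ℤ[X]) hX ε hε
  have ev : ∀ᶠ Y : ℝ in atTop, (Real.log Y) ^ B ≤ Y := by
    have h1 := isLittleO_log_rpow_rpow_atTop B (one_pos : (0 : ℝ) < 1)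
    have h2 := h1.bound (one_pos : (0 : ℝ) < 1)
    filter_upwards [h2, eventually_ge_atTop (1 : ℝ)] with Y h3 h4
    have hl : 0 ≤ Real.log Y := Real.log_nonneg h4
    rw [Real.norm_of_nonneg (Real.rpow_nonneg hl _), Real.norm_of_nonneg (by positivity), one_mul,
      Real.rpow_one] at h3
    exact h3
  have ev2 : ∀ᶠ Y : ℕ in atTop, (Real.log (3 * (Y : ℝ) + 3)) ^ B ≤ 2 * (Y : ℝ) + 2 := by
    have h1 := isLittleO_log_rpow_rpow_atTop B (one_pos : (0 : ℝ) < 1)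
    have h2 := h1.bound (by norm_num : (0 : ℝ) < 1 / 2)
    have h3 : Tendsto (fun Y : ℕ => 3 * (Y : ℝ) + 3) atTop atTop :=
      tendsto_atTop_add_const_right _ _ (tendsto_natCast_atTop_atTop.const_mul_atTop (by norm_num))
    filter_upwards [h3.eventually h2] with Y h4
    have hY : (0 : ℝ) ≤ Y := Nat.cast_nonneg _
    have hl : 0 ≤ Real.log (3 * (Y : ℝ) + 3) := Real.log_nonneg (by linarith)
    rw [Real.norm_of_nonneg (Real.rpow_nonneg hl _), Real.norm_of_nonneg (by positivity), Real.rpow_one] at h4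
    linarith
  obtain ⟨Y₀, hY₀⟩ := eventually_atTop.1 ev2
  refine ⟨B * 6 ^ (1 / 2 + ε), by positivity, max Y₀ 1, fun Y hY => ?_⟩
  have hY1 : 1 ≤ Y := (le_max_right _ _).trans hY
  have hY1' : (1 : ℝ) ≤ Y := by exact_mod_cast hY1
  have hcast : |((-(Y : ℤ) - 1 : ℤ) : ℝ)| = Y + 1 := by
    push_cast
    rw [abs_of_nonpos (by linarith)]
    ring
  obtain ⟨E, hE1, hE2, hE3⟩ := hB (-(Y : ℤ) - 1) (2 * Y + 2) (by omega) (by
    rw [hcast]
    have h1 := hY₀ Y ((le_max_left _ _).trans hY)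
    push_cast
    have e : (Y : ℝ) + 1 + (2 * Y + 2) = 3 * Y + 3 := by ring
    rw [e]
    exact h1)
  refine ⟨E, ?_, fun t ht htE K _ _ hK l hl => ?_⟩
  · refine hE2.trans ?_
    rw [mul_assoc, ← Real.mul_rpow (by norm_num) (by linarith)]
    apply mul_le_mul_of_nonneg_left _ hB0.le
    apply Real.rpow_le_rpow (Nat.cast_nonneg _) _ (by linarith)
    push_cast
    linarith
  · obtain ⟨h1, α, h2, h3⟩ := hK
    have h4 := hE3 t (by
      rw [Finset.mem_Ioc]
      have := abs_le.1 ht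
      push_cast
      constructor <;> omega) htE K h1 α h2 (by rw [eval_X]; exact h3) l hl
    unfold torsion
    refine h4.trans ?_
    rw [hcast]
    have hd : 0 ≤ |(discr K : ℝ)| ^ (1 / 2 - 1 / (2 * l) : ℝ) := by positivity
    have h5 : ((Y : ℝ) + 1 + ((2 * Y + 2 : ℕ) : ℝ)) ^ ε ≤ 6 ^ (1 / 2 + ε) * (Y : ℝ) ^ ε := by
      calc ((Y : ℝ) + 1 + ((2 * Y + 2 : ℕ) : ℝ)) ^ ε ≤ (6 * (Y : ℝ)) ^ ε := by
            apply Real.rpow_le_rpow (by positivity) _ hε.le
            push_cast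
            linarith
        _ = 6 ^ ε * (Y : ℝ) ^ ε := Real.mul_rpow (by norm_num) (by linarith)
        _ ≤ 6 ^ (1 / 2 + ε) * (Y : ℝ) ^ ε := by
            apply mul_le_mul_of_nonneg_right _ (by positivity)
            exact Real.rpow_le_rpow_of_exponent_le (by norm_num) (by linarith)
    calc B * |(discr K : ℝ)| ^ (1 / 2 - 1 / (2 * l) : ℝ) * ((Y : ℝ) + 1 + ((2 * Y + 2 : ℕ) : ℝ)) ^ ε
        ≤ B * |(discr K : ℝ)| ^ (1 / 2 - 1 / (2 * l) : ℝ) * (6 ^ (1 / 2 + ε) * (Y : ℝ) ^ ε) :=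
          mul_le_mul_of_nonneg_left h5 (by positivity)
      _ = B * 6 ^ (1 / 2 + ε) * |(discr K : ℝ)| ^ (1 / 2 - 1 / (2 * l) : ℝ) * (Y : ℝ) ^ ε := by ring

theorem result (δ ε κ : ℝ) (hδ : 0 < δ) (hδ2 : δ < 2) (hε : 0 < ε) (hκ : 0 < κ) (m : ℕ) : ∃ c : ℝ, 0 < c ∧
    ∀ Z : ℕ, ∃ C : ℕ, ∃ X₀ : ℝ, ∀ X : ℝ, X₀ ≤ X →
    ∃ S : Finset ℕ, (∀ q ∈ S, q.Prime ∧ Z < q) ∧ (S.card : ℝ) ≤ (Real.log X) ^ (49 / 50 : ℝ) ∧
    ∀ f : ℕ → ℤ, (∀ q, f q = 1 ∨ f q = -1) →
      X ^ (1 - κ) ≤ (((Icc 1 ⌊3 * X⌋₊).filter fun n : ℕ => X < n ∧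
        m ≤ ((Icc n (n + C)).filter Nat.Prime).card ∧
        ∀ p ∈ Icc n (n + C), p.Prime → Good δ ε p ∧
          ∀ q : ℕ, q.Prime → q ≠ 2 → (q : ℝ) ≤ c * Real.log X → q ∉ S → jacobiSym p q = f q).card : ℝ) := by
  obtain ⟨ε₁, hε₁⟩ : ∃ ε₁, ε₁ = min (δ / 8) (ε / 8) := ⟨_, rfl⟩
  have hε₁0 : 0 < ε₁ := by rw [hε₁]; exact lt_min (by positivity) (by positivity)
  have hε₁δ : ε₁ ≤ δ / 8 := by rw [hε₁]; exact min_le_left _ _
  have hε₁ε : ε₁ ≤ ε / 8 := by rw [hε₁]; exact min_le_right _ _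
  obtain ⟨B, hB, Y₀, hY₀⟩ := exceptional ε₁ hε₁0
  obtain ⟨κ', hκ'⟩ : ∃ κ', κ' = min κ (δ / 8) := ⟨_, rfl⟩
  have hκ0 : 0 < κ' := by rw [hκ']; exact lt_min hκ (by positivity)
  have hκκ : κ' ≤ κ := by rw [hκ']; exact min_le_left _ _
  have hκ1 : κ' ≤ δ / 8 := by rw [hκ']; exact min_le_right _ _
  obtain ⟨c, hc, hmain⟩ := Pool.Agent.Q84.MB.sym_strings m κ' hκ0
  refine ⟨c, hc, fun Z => ?_⟩
  obtain ⟨C, hC⟩ := hmain Z
  obtain ⟨X₀, hX₀⟩ := eventually_atTop.1 ((hC.and ((tendsto_rpow_atTop (by positivity : 0 < δ / 8)).eventually_ge_atTop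
    (4 * B * 4 ^ (2 : ℝ)))).and (((tendsto_rpow_atTop (by positivity : 0 < ε / 2)).eventually_ge_atTop
    (B * 4 ^ (ε / 4))).and ((eventually_ge_atTop (8 : ℝ)).and
      ((tendsto_rpow_atTop (by linarith : 0 < 2 - δ)).eventually_ge_atTop ((Y₀ : ℝ) + 1)))))
  refine ⟨C, X₀, fun X hX => ?_⟩
  obtain ⟨⟨⟨S, hS1, hS2, hS3⟩, hpow1⟩, hpow2, hX8, hXY⟩ := hX₀ X hX
  have hX0 : 0 < X := by linarith
  have hX1 : 1 ≤ X := by linarith
  refine ⟨S, hS1, hS2, fun f hf => ?_⟩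
  have hP : (((Icc 1 ⌊4 * X⌋₊).filter fun p : ℕ => p.Prime ∧ X < p ∧ ¬ Good δ ε p).card : ℝ) ≤
      X ^ (1 - κ') := by
    obtain ⟨P, hPd⟩ : ∃ P, P = (Icc 1 ⌊4 * X⌋₊).filter fun p : ℕ => p.Prime ∧ X < p ∧ ¬ Good δ ε p := ⟨_, rfl⟩
    rw [← hPd]
    obtain ⟨Y, hY⟩ : ∃ Y, Y = ⌊(4 * X) ^ (2 - δ)⌋₊ := ⟨_, rfl⟩
    have hYle : (Y : ℝ) ≤ (4 * X) ^ (2 - δ) := by rw [hY]; exact Nat.floor_le (by positivity)
    have hY4 : (Y : ℝ) ≤ (4 * X) ^ (2 : ℝ) :=
      hYle.trans (Real.rpow_le_rpow_of_exponent_le (by linarith) (by linarith))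
    have hYge : Y₀ ≤ Y := by
      rw [hY]
      apply Nat.le_floor
      have h1 : X ^ (2 - δ) ≤ (4 * X) ^ (2 - δ) := Real.rpow_le_rpow hX0.le (by linarith) (by linarith)
      linarith
    obtain ⟨E, hE1, hE2⟩ := hY₀ Y hYge
    have h1 := Pool.Agent.Q84.MB.card_divisors_le X (by linarith) 4 P
      (E.filter fun t : ℤ => t ≠ 0 ∧ |t| ≤ Y) (fun p hp => by
        rw [hPd, mem_filter, mem_Icc] at hp
        obtain ⟨⟨-, hp4⟩, hpp, hXp, hg⟩ := hp
        have hp4' : (p : ℝ) ≤ 4 * X := (Nat.le_floor_iff (by linarith)).1 hp4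
        refine ⟨hpp, hXp, ?_⟩
        unfold Good at hg
        push Not at hg
        obtain ⟨t, ht0, hpt, htp, K, _, _, hK, l, hl, hlt⟩ := hg
        have htY : |t| ≤ Y := by
          have h2 : |(t : ℝ)| ≤ (4 * X) ^ (2 - δ) :=
            htp.trans (Real.rpow_le_rpow (Nat.cast_nonneg _) hp4' (by linarith))
          have h3 : t.natAbs ≤ Y := by
            rw [hY]
            apply Nat.le_floor
            rw [Nat.cast_natAbs, Int.cast_abs]
            exact h2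
          rw [Int.abs_eq_natAbs]
          exact_mod_cast h3
        refine ⟨t, ?_, hpt⟩
        rw [mem_filter]
        refine ⟨?_, ht0, htY⟩
        by_contra htE
        have h2 := hE2 t htY htE K hK l hl
        have hd : 0 ≤ |(discr K : ℝ)| ^ (1 / 2 - 1 / (2 * l) : ℝ) := by positivity
        have h3 : B * (Y : ℝ) ^ ε₁ ≤ (p : ℝ) ^ ε := by
          calc B * (Y : ℝ) ^ ε₁ ≤ B * ((4 * X) ^ (2 : ℝ)) ^ (ε / 8) := by
                apply mul_le_mul_of_nonneg_left _ hB.le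
                calc (Y : ℝ) ^ ε₁ ≤ ((4 * X) ^ (2 : ℝ)) ^ ε₁ :=
                      Real.rpow_le_rpow (Nat.cast_nonneg _) hY4 hε₁0.le
                  _ ≤ ((4 * X) ^ (2 : ℝ)) ^ (ε / 8) :=
                      Real.rpow_le_rpow_of_exponent_le (Real.one_le_rpow (by linarith) (by norm_num)) hε₁ε
            _ = (B * 4 ^ (ε / 4)) * X ^ (ε / 4) := by
                rw [← Real.rpow_mul (by positivity), Real.mul_rpow (by norm_num) hX0.le]
                have e : 2 * (ε / 8) = ε / 4 := by ring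
                rw [e]
                ring
            _ ≤ X ^ (ε / 2) * X ^ (ε / 4) := mul_le_mul_of_nonneg_right hpow2 (by positivity)
            _ = X ^ (ε / 2 + ε / 4) := by rw [← Real.rpow_add hX0]
            _ ≤ X ^ ε := Real.rpow_le_rpow_of_exponent_le hX1 (by linarith)
            _ ≤ (p : ℝ) ^ ε := Real.rpow_le_rpow hX0.le hXp.le hε.le
        have h4 : torsion K l ≤ |(discr K : ℝ)| ^ (1 / 2 - 1 / (2 * l) : ℝ) * (p : ℝ) ^ ε := by
          calc torsion K l ≤ B * |(discr K : ℝ)| ^ (1 / 2 - 1 / (2 * l) : ℝ) * (Y : ℝ) ^ ε₁ := h2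
            _ = |(discr K : ℝ)| ^ (1 / 2 - 1 / (2 * l) : ℝ) * (B * (Y : ℝ) ^ ε₁) := by ring
            _ ≤ _ := mul_le_mul_of_nonneg_left h3 hd
        linarith) (fun t ht => by
        rw [mem_filter] at ht
        refine ⟨ht.2.1, ?_⟩
        have h2 : |(t : ℝ)| ≤ Y := by
          rw [← Int.cast_abs]
          exact_mod_cast ht.2.2
        calc |(t : ℝ)| ≤ (4 * X) ^ (2 : ℝ) := h2.trans hY4
          _ ≤ (X ^ (2 : ℝ)) ^ (2 : ℝ) := by
              apply Real.rpow_le_rpow (by positivity) _ (by norm_num)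
              rw [Real.rpow_two]
              nlinarith
          _ = X ^ (4 : ℝ) := by rw [← Real.rpow_mul hX0.le]; norm_num)
    have h2 : ((E.filter fun t : ℤ => t ≠ 0 ∧ |t| ≤ Y).card : ℝ) ≤ B * (Y : ℝ) ^ (1 / 2 + ε₁) :=
      le_trans (by exact_mod_cast card_filter_le _ _) hE1
    have h3 : B * (Y : ℝ) ^ (1 / 2 + ε₁) ≤ B * 4 ^ (2 : ℝ) * X ^ (1 - δ / 4) := by
      rw [mul_assoc]
      apply mul_le_mul_of_nonneg_left _ hB.le
      calc (Y : ℝ) ^ (1 / 2 + ε₁) ≤ ((4 * X) ^ (2 - δ)) ^ (1 / 2 + ε₁) :=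
            Real.rpow_le_rpow (Nat.cast_nonneg _) hYle (by linarith)
        _ = (4 * X) ^ ((2 - δ) * (1 / 2 + ε₁)) := by rw [← Real.rpow_mul (by positivity)]
        _ ≤ (4 * X) ^ (1 - δ / 4) := by
            apply Real.rpow_le_rpow_of_exponent_le (by linarith)
            nlinarith
        _ = 4 ^ (1 - δ / 4) * X ^ (1 - δ / 4) := Real.mul_rpow (by norm_num) hX0.le
        _ ≤ 4 ^ (2 : ℝ) * X ^ (1 - δ / 4) := by
            apply mul_le_mul_of_nonneg_right _ (by positivity)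
            exact Real.rpow_le_rpow_of_exponent_le (by norm_num) (by linarith)
    calc (P.card : ℝ) ≤ 4 * ((E.filter fun t : ℤ => t ≠ 0 ∧ |t| ≤ Y).card : ℝ) := h1
      _ ≤ 4 * (B * 4 ^ (2 : ℝ) * X ^ (1 - δ / 4)) := by linarith
      _ = (4 * B * 4 ^ (2 : ℝ)) * X ^ (1 - δ / 4) := by ring
      _ ≤ X ^ (δ / 8) * X ^ (1 - δ / 4) := mul_le_mul_of_nonneg_right hpow1 (by positivity)
      _ = X ^ (1 - δ / 8) := by rw [← Real.rpow_add hX0]; congr 1; ring
      _ ≤ X ^ (1 - κ') := Real.rpow_le_rpow_of_exponent_le hX1 (by linarith)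
  have h3 := hS3 f hf (Good δ ε) hP
  have hpow : X ^ (1 - κ) ≤ X ^ (1 - κ') := Real.rpow_le_rpow_of_exponent_le hX1 (by linarith)
  refine hpow.trans (h3.trans (le_of_eq ?_))
  congr!

end Pool.Agent.Results.MP_695920_nt.TorsionOnStringsOfPrimes
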